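import Pool.Agent.V5helper26.IR.Stm

/-!
# Project IR: the step LIN
-/

set_option autoImplicit false

open Finset Filter Topology
open scoped Classical

namespace Pool.Agent.V5helper68.IR

open Pool.Agent.V5helper26.IR

/-- the class of a number in `[1, 4 W]` -/
theorem cls_of {t : ℝ} {W : ℕ} (ht : 1 ≤ t) (htW : t ≤ 4 * W) :
    Nat.log 4 ⌊t⌋₊ < Nat.log 4 (4 * W) + 1 ∧ (4 : ℝ) ^ Nat.log 4 ⌊t⌋₊ ≤ t ∧
      t ≤ 4 * (4 : ℝ) ^ Nat.log 4 ⌊t⌋₊ := by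
  have h0 : (0 : ℝ) ≤ t := by linarith
  have hf1 : 1 ≤ ⌊t⌋₊ := by
    rw [Nat.one_le_floor_iff]
    exact ht
  have hf2 : (⌊t⌋₊ : ℝ) ≤ t := Nat.floor_le h0
  have hf3 : t < ⌊t⌋₊ + 1 := Nat.lt_floor_add_one t
  refine ⟨?_, ?_, ?_⟩
  · have h1 : ⌊t⌋₊ ≤ 4 * W := by
      have : (⌊t⌋₊ : ℝ) ≤ ((4 * W : ℕ) : ℝ) := by
        push_cast
        linarith
      exact_mod_cast this
    have := Nat.log_mono_right (b := 4) h1
    omega
  · have h1 : 4 ^ Nat.log 4 ⌊t⌋₊ ≤ ⌊t⌋₊ := Nat.pow_log_le_self 4 (by omega)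
    have h2 : ((4 ^ Nat.log 4 ⌊t⌋₊ : ℕ) : ℝ) ≤ ((⌊t⌋₊ : ℕ) : ℝ) := by exact_mod_cast h1
    push_cast at h2
    linarith
  · have h1 : ⌊t⌋₊ < 4 ^ (Nat.log 4 ⌊t⌋₊ + 1) := Nat.lt_pow_succ_log_self (by norm_num) _
    have h2 : (((⌊t⌋₊ + 1 : ℕ)) : ℝ) ≤ ((4 ^ (Nat.log 4 ⌊t⌋₊ + 1) : ℕ) : ℝ) := by
      exact_mod_cast h1
    push_cast at h2
    rw [pow_succ] at h2
    linarith

theorem log4_ge : (1 : ℝ) ≤ Real.log 4 := by
  have h1 : Real.log 4 = 2 * Real.log 2 := by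
    rw [show (4 : ℝ) = 2 ^ 2 by norm_num, Real.log_pow]
    norm_num
  rw [h1]
  have := Real.log_two_gt_d9
  linarith

theorem num_le {W a : ℕ} (hW : 1 ≤ W) :
    ((Nat.log 4 (4 * W) + 1 : ℕ) : ℝ) ≤ 2 * (1 + Real.log ((W : ℝ) + a)) := by
  have hW' : (1 : ℝ) ≤ W := by exact_mod_cast hW
  have h1 : Nat.log 4 (4 * W) = Nat.log 4 W + 1 := by
    rw [mul_comm]
    exact Nat.log_mul_base (by norm_num) (by omega)
  have h2 : 4 ^ Nat.log 4 W ≤ W := Nat.pow_log_le_self 4 (by omega)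
  have h3 : ((4 : ℝ)) ^ Nat.log 4 W ≤ W := by exact_mod_cast h2
  have h4 : (Nat.log 4 W : ℝ) * Real.log 4 ≤ Real.log W := by
    rw [← Real.log_pow]
    exact Real.log_le_log (by positivity) h3
  have h5 : (Nat.log 4 W : ℝ) ≤ Real.log W := by
    have h6 : (0 : ℝ) ≤ (Nat.log 4 W : ℝ) := Nat.cast_nonneg _
    nlinarith [log4_ge]
  have h6 : Real.log W ≤ Real.log ((W : ℝ) + a) :=
    Real.log_le_log (by linarith) (by
      have : (0 : ℝ) ≤ a := Nat.cast_nonneg _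
      linarith)
  have h7 : 0 ≤ Real.log ((W : ℝ) + a) := (Real.log_nonneg hW').trans h6
  rw [h1]
  push_cast
  linarith

theorem Lb_le {W a b : ℕ} (hW : 1 ≤ W) (hb : b ≤ a) :
    (Lb b : ℝ) ≤ 27 * (1 + Real.log ((W : ℝ) + a)) := by
  have hW' : (1 : ℝ) ≤ W := by exact_mod_cast hW
  have ha' : (0 : ℝ) ≤ a := Nat.cast_nonneg _
  have h0 : 0 ≤ Real.log ((W : ℝ) + a) := Real.log_nonneg (by linarith)
  have h1 : (Nat.clog 2 b : ℝ) ≤ 1 + 2 * Real.log ((W : ℝ) + a) := by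
    rcases Nat.eq_zero_or_pos (Nat.clog 2 b) with h | h
    · rw [h]
      push_cast
      linarith
    · obtain ⟨k, hk⟩ : ∃ k, Nat.clog 2 b = k + 1 := ⟨Nat.clog 2 b - 1, by omega⟩
      have h2 : 2 ^ k < b := by
        by_contra hcon
        have h3 : Nat.clog 2 b ≤ k := Nat.clog_le_of_le_pow (not_lt.1 hcon)
        omega
      have h3 : ((2 : ℝ)) ^ k ≤ (W : ℝ) + a := by
        have h4 : ((2 ^ k : ℕ) : ℝ) ≤ ((a : ℕ) : ℝ) := by exact_mod_cast (h2.le.trans hb)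
        push_cast at h4
        linarith
      have h4 : (k : ℝ) * Real.log 2 ≤ Real.log ((W : ℝ) + a) := by
        rw [← Real.log_pow]
        exact Real.log_le_log (by positivity) h3
      have h5 := Real.log_two_gt_d9
      have h6 : (0 : ℝ) ≤ (k : ℝ) := Nat.cast_nonneg _
      rw [hk]
      push_cast
      nlinarith
  unfold Lb
  push_cast
  linarith

theorem exists_b (a I : ℕ) (hI : 1 ≤ I) : ∃ b : ℕ, 8 * b ^ 3 * I ≤ a ∧ a < 8 * (b + 1) ^ 3 * I := by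
  have hex : ∃ b : ℕ, a < 8 * (b + 1) ^ 3 * I := by
    refine ⟨a, ?_⟩
    have h1 : a + 1 ≤ (a + 1) ^ 3 := Nat.le_self_pow (by norm_num) _
    have h2 : (a + 1) ^ 3 * 1 ≤ (a + 1) ^ 3 * I := Nat.mul_le_mul_left _ hI
    nlinarith
  obtain ⟨b, hb1, hb2⟩ : ∃ b, a < 8 * (b + 1) ^ 3 * I ∧ ∀ m < b, ¬ a < 8 * (m + 1) ^ 3 * I :=
    ⟨Nat.find hex, Nat.find_spec hex, fun m hm => Nat.find_min hex hm⟩
  refine ⟨b, ?_, hb1⟩
  rcases b with _ | b
  · simp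
  · exact not_lt.1 (hb2 b (Nat.lt_succ_self b))

/-- `a ^ (2/3) ≤ 64 λ b²` -/
theorem pow_bound {a b : ℕ} {l : ℝ} (hl : 1 ≤ l) (hb : 1 ≤ b)
    (h : (a : ℝ) ≤ 128 * (b : ℝ) ^ 3 * l) :
    (a : ℝ) ^ (2 / 3 : ℝ) ≤ 64 * l * (b : ℝ) ^ 2 := by
  have hb' : (1 : ℝ) ≤ b := by exact_mod_cast hb
  have ha : (0 : ℝ) ≤ a := Nat.cast_nonneg _
  have h1 : (a : ℝ) ^ (2 / 3 : ℝ) = ((a : ℝ) ^ 2) ^ (1 / 3 : ℝ) := by
    rw [← Real.rpow_natCast, ← Real.rpow_mul ha]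
    norm_num
  have h2 : 64 * l * (b : ℝ) ^ 2 = ((64 * l * (b : ℝ) ^ 2) ^ 3) ^ (1 / 3 : ℝ) := by
    rw [← Real.rpow_natCast (64 * l * (b : ℝ) ^ 2) 3, ← Real.rpow_mul (by positivity)]
    norm_num
  rw [h1, h2]
  apply Real.rpow_le_rpow (by positivity) _ (by norm_num)
  calc (a : ℝ) ^ 2 ≤ (128 * (b : ℝ) ^ 3 * l) ^ 2 := pow_le_pow_left₀ ha h 2
    _ = 128 ^ 2 * ((b : ℝ) ^ 6 * l ^ 2) * 1 := by ring
    _ ≤ 128 ^ 2 * ((b : ℝ) ^ 6 * l ^ 2) * (16 * l) := by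
        apply mul_le_mul_of_nonneg_left _ (by positivity)
        linarith
    _ = (64 * l * (b : ℝ) ^ 2) ^ 3 := by ring

theorem cnt_abs {P : Type} [Fintype P] (r : P → P → Prop) (x y : P) :
    |Pool.Agent.TH447.KS.cnt r x y - Pool.Agent.TH447.KS.cnt r y x| ≤
      (Pool.Agent.TH447.KS.Lin r).card := by
  have h : ∀ x y : P, 0 ≤ Pool.Agent.TH447.KS.cnt r x y ∧
      Pool.Agent.TH447.KS.cnt r x y ≤ (Pool.Agent.TH447.KS.Lin r).card := by
    intro x y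
    unfold Pool.Agent.TH447.KS.cnt
    constructor
    · exact Finset.sum_nonneg fun f _ => by split_ifs <;> norm_num
    · calc ∑ f ∈ Pool.Agent.TH447.KS.Lin r, (if f x < f y then (1 : ℝ) else 0)
          ≤ ∑ f ∈ Pool.Agent.TH447.KS.Lin r, (1 : ℝ) :=
            Finset.sum_le_sum fun f _ => by split_ifs <;> norm_num
        _ = _ := by simp
  rw [abs_le]
  constructor <;> linarith [(h x y).1, (h x y).2, (h y x).1, (h y x).2]

section core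

variable {P : Type} [Fintype P] [PartialOrder P]

theorem pair_M (hCore : S_CORE)
    (h22 : ∀ a b c d : P, a < b → c < d → a < d ∨ c < b) (A : Finset P) (W b M : ℕ)
    (hA : ∀ a ∈ A, ∀ b ∈ A, ¬ a < b) (hcard : 2 ≤ A.card)
    (hW : ∀ x ∈ A, Pool.Agent.TH447.KS.inc (fun a b : P => a < b) x ≤ W) (hb : 1 ≤ b)
    (hbI : 8 * b ^ 3 * (Nat.log 4 (4 * W) + 1) ≤ A.card)
    (hM : ∀ x : P, (M : ℝ) ≤ 2 * Fintype.card P * kap (fun a b : P => a < b) M x ∧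
      Fintype.card P * kap (fun a b : P => a < b) M x ≤
        2 * (Pool.Agent.TH447.KS.inc (fun a b : P => a < b) x : ℝ) * M)
    (hMn : 2 * Fintype.card P * b + 1 ≤ M) :
    ∃ x ∈ A, ∃ y ∈ A, x ≠ y ∧
      |ex (fun a b : P => a < b) M (fun f => sg (f x) (f y))| ≤
        2 ^ 60 * (Lb b : ℝ) ^ 6 / (b : ℝ) ^ 2 := by
  obtain ⟨n, hn⟩ : ∃ n, n = Fintype.card P := ⟨_, rfl⟩
  rw [← hn] at hM hMn
  have hnpos : 0 < n := by
    rw [hn]
    have : A.card ≤ Fintype.card P := Finset.card_le_univ A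
    omega
  have hn' : (0 : ℝ) < n := by exact_mod_cast hnpos
  have hMpos : 0 < M := by omega
  have hM' : (0 : ℝ) < M := by exact_mod_cast hMpos
  obtain ⟨t, ht⟩ : ∃ t : P → ℝ, ∀ x, t x = kap (fun a b : P => a < b) M x * (2 * n) / M :=
    ⟨_, fun x => rfl⟩
  have ht1 : ∀ x : P, 1 ≤ t x := by
    intro x
    rw [ht, le_div_iff₀ hM']
    linarith [(hM x).1]
  have ht2 : ∀ x ∈ A, t x ≤ 4 * W := by
    intro x hx
    rw [ht, div_le_iff₀ hM']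
    have h1 := (hM x).2
    have h2 : (Pool.Agent.TH447.KS.inc (fun a b : P => a < b) x : ℝ) ≤ W := by
      exact_mod_cast hW x hx
    have h3 : 2 * (Pool.Agent.TH447.KS.inc (fun a b : P => a < b) x : ℝ) * M ≤ 2 * W * M :=
      mul_le_mul_of_nonneg_right (by linarith) hM'.le
    nlinarith
  have hmaps : ∀ x ∈ A, Nat.log 4 ⌊t x⌋₊ ∈ range (Nat.log 4 (4 * W) + 1) := by
    intro x hx
    rw [Finset.mem_range]
    exact (cls_of (ht1 x) (ht2 x hx)).1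
  obtain ⟨i, -, hi⟩ := Finset.exists_le_card_fiber_of_mul_le_card_of_maps_to
    (n := 8 * b ^ 3) hmaps ⟨0, by simp⟩ (by rw [Finset.card_range, mul_comm]; exact hbI)
  obtain ⟨C, hCs, hCc⟩ := Finset.exists_subset_card_eq hi
  have hCA : ∀ x ∈ C, x ∈ A ∧ Nat.log 4 ⌊t x⌋₊ = i := fun x hx => Finset.mem_filter.1 (hCs hx)
  have hCls : Cls (fun a b : P => a < b) M b ((4 : ℝ) ^ i * M / (2 * n)) C := by
    refine ⟨hb, hMpos, ?_, hCc, ?_, ?_, ?_, ?_, ?_⟩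
    · intro a ha b hb'
      exact hA a (hCA a ha).1 b (hCA b hb').1
    · intro x hx y hy z z' h1 h2
      rcases h22 z y x z' h1 h2 with h | h
      · exact h
      · exact absurd h (hA x (hCA x hx).1 y (hCA y hy).1)
    · intro x _ y _
      by_contra hcon
      push Not at hcon
      obtain ⟨⟨z, hz1, hz2⟩, z', hz3, hz4⟩ := hcon
      rcases h22 z x z' y hz1 hz3 with h | h
      · exact hz2 h
      · exact hz4 h
    · intro x _ y _
      by_contra hcon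
      push Not at hcon
      obtain ⟨⟨z, hz1, hz2⟩, z', hz3, hz4⟩ := hcon
      rcases h22 x z y z' hz1 hz3 with h | h
      · exact hz4 h
      · exact hz2 h
    · intro x hx
      obtain ⟨hxA, hxi⟩ := hCA x hx
      obtain ⟨-, h1, h2⟩ := cls_of (ht1 x) (ht2 x hxA)
      rw [hxi] at h1 h2
      rw [ht] at h1 h2
      rw [le_div_iff₀ hM'] at h1
      rw [div_le_iff₀ hM'] at h2
      constructor
      · rw [div_le_iff₀ (by positivity)]
        linarith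
      · rw [mul_div_assoc', le_div_iff₀ (by positivity)]
        linarith
    · rw [le_div_iff₀ (by positivity)]
      have h1 : ((2 * n * b + 1 : ℕ) : ℝ) ≤ M := by exact_mod_cast hMn
      push_cast at h1
      have h2 : (1 : ℝ) ≤ (4 : ℝ) ^ i := one_le_pow₀ (by norm_num)
      nlinarith
  obtain ⟨x, hx, y, hy, hxy, h⟩ := hCore P (fun a b : P => a < b) M b _ C hCls
  exact ⟨x, (hCA x hx).1, y, (hCA y hy).1, hxy, h⟩

theorem card_le_inc (A : Finset P) (hA : ∀ a ∈ A, ∀ b ∈ A, ¬ a < b) (x : P) (hx : x ∈ A) :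
    A.card ≤ Pool.Agent.TH447.KS.inc (fun a b : P => a < b) x := by
  unfold Pool.Agent.TH447.KS.inc
  apply Finset.card_le_card
  intro y hy
  rw [Finset.mem_filter]
  exact ⟨Finset.mem_univ _, hA x hx y hy, hA y hy x hx⟩

end core

/-- (LIN) -/
theorem t_LIN (hCore : S_CORE) (hR : S_RANGE) (hL : S_LIM) : S_LIN := by
  refine ⟨2 ^ 66 * 27 ^ 6, by positivity, ?_⟩
  intro P _ _ h22 A W hA hcard hW
  obtain ⟨r, hr⟩ : ∃ r : P → P → Prop, r = fun a b : P => a < b := ⟨_, rfl⟩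
  obtain ⟨x₀, hx₀⟩ : A.Nonempty := by rw [← Finset.card_pos]; omega
  have haW : A.card ≤ W := (card_le_inc A hA x₀ hx₀).trans (hW x₀ hx₀)
  have hW1 : 1 ≤ W := by omega
  obtain ⟨a, ha⟩ : ∃ a, a = A.card := ⟨_, rfl⟩
  obtain ⟨l, hl⟩ : ∃ l : ℝ, l = 1 + Real.log ((W : ℝ) + A.card) := ⟨_, rfl⟩
  have hW1' : (1 : ℝ) ≤ W := by exact_mod_cast hW1
  have hl1 : 1 ≤ l := by
    rw [hl]
    have : 0 ≤ Real.log ((W : ℝ) + A.card) := Real.log_nonneg (by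
      have : (0 : ℝ) ≤ (A.card : ℝ) := Nat.cast_nonneg _
      linarith)
    linarith
  have hI := num_le (W := W) (a := A.card) hW1
  rw [← hl] at hI
  obtain ⟨b, hb1, hb2⟩ := exists_b A.card (Nat.log 4 (4 * W) + 1) (by omega)
  have hb2' : (A.card : ℝ) ≤ 8 * ((b : ℝ) + 1) ^ 3 * (2 * l) := by
    have h1 : ((A.card : ℕ) : ℝ) ≤ ((8 * (b + 1) ^ 3 * (Nat.log 4 (4 * W) + 1) : ℕ) : ℝ) := by
      exact_mod_cast hb2.le
    push_cast at h1 hI
    refine h1.trans ?_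
    apply mul_le_mul_of_nonneg_left hI (by positivity)
  have hapos : (0 : ℝ) < A.card := by
    have : 0 < A.card := by omega
    exact_mod_cast this
  have hap : (0 : ℝ) < (A.card : ℝ) ^ (2 / 3 : ℝ) := Real.rpow_pos_of_pos hapos _
  have hLin : (0 : ℝ) ≤ ((Pool.Agent.TH447.KS.Lin (fun a b : P => a < b)).card : ℝ) :=
    Nat.cast_nonneg _
  rw [← hl]
  rcases Nat.eq_zero_or_pos b with hb0 | hbpos
  · -- the trivial case
    subst hb0
    obtain ⟨x, hx, y, hy, hxy⟩ := Finset.one_lt_card.1 (show 1 < A.card by omega)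
    refine ⟨x, hx, y, hy, hxy, (cnt_abs _ x y).trans ?_⟩
    have h1 : (A.card : ℝ) ≤ 16 * l := by
      push_cast at hb2'
      linarith
    have h2 : (A.card : ℝ) ^ (2 / 3 : ℝ) ≤ 64 * l * ((1 : ℕ) : ℝ) ^ 2 :=
      pow_bound hl1 le_rfl (by push_cast; linarith)
    have h3 : (1 : ℝ) ≤ 2 ^ 66 * 27 ^ 6 * l ^ 7 / (A.card : ℝ) ^ (2 / 3 : ℝ) := by
      rw [le_div_iff₀ hap]
      push_cast at h2
      have h4 : l ≤ l ^ 7 := le_self_pow₀ hl1 (by norm_num)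
      nlinarith
    nlinarith
  · -- the main case
    obtain ⟨R, hRR⟩ : ∃ R : ℝ, R = 2 ^ 60 * (Lb b : ℝ) ^ 6 / (b : ℝ) ^ 2 := ⟨_, rfl⟩
    have hev : ∀ᶠ M : ℕ in atTop, ∃ p : P × P, (p.1 ∈ A ∧ p.2 ∈ A ∧ p.1 ≠ p.2) ∧
        |ex (fun a b : P => a < b) M (fun f => sg (f p.1) (f p.2))| ≤ R := by
      filter_upwards [hR P, eventually_ge_atTop (2 * Fintype.card P * b + 1)] with M h1 h2
      obtain ⟨x, hx, y, hy, hxy, h⟩ := pair_M hCore h22 A W b M hA hcard hW hbpos hb1 h1 h2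
      exact ⟨(x, y), ⟨hx, hy, hxy⟩, by rw [hRR]; exact h⟩
    have hfr : ∃ p : P × P, ∃ᶠ M : ℕ in atTop, (p.1 ∈ A ∧ p.2 ∈ A ∧ p.1 ≠ p.2) ∧
        |ex (fun a b : P => a < b) M (fun f => sg (f p.1) (f p.2))| ≤ R := by
      by_contra hcon
      rw [not_exists] at hcon
      have h1 : ∀ᶠ M : ℕ in atTop, ∀ p : P × P, ¬ ((p.1 ∈ A ∧ p.2 ∈ A ∧ p.1 ≠ p.2) ∧
          |ex (fun a b : P => a < b) M (fun f => sg (f p.1) (f p.2))| ≤ R) := by
        rw [eventually_all]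
        intro p
        exact Filter.not_frequently.1 (hcon p)
      obtain ⟨M, ⟨p, hp⟩, h2⟩ := (hev.and h1).exists
      exact h2 p hp
    obtain ⟨⟨x, y⟩, hxyf⟩ := hfr
    obtain ⟨M₀, ⟨hx, hy, hxy⟩, -⟩ := hxyf.exists
    simp only at hx hy hxy
    refine ⟨x, hx, y, hy, hxy, ?_⟩
    have hlim := (hL P x y hxy).abs
    have hle : |(Pool.Agent.TH447.KS.cnt (fun a b : P => a < b) x y -
        Pool.Agent.TH447.KS.cnt (fun a b : P => a < b) y x) /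
        (Pool.Agent.TH447.KS.Lin (fun a b : P => a < b)).card| ≤ R := by
      by_contra hcon
      have h1 := hlim.eventually (lt_mem_nhds (not_le.1 hcon))
      obtain ⟨M, h2, h3⟩ := (hxyf.and_eventually h1).exists
      exact absurd h2.2 (not_le.2 h3)
    -- numbers
    have hbr : (1 : ℝ) ≤ b := by exact_mod_cast hbpos
    have hba : b ≤ A.card := by
      have h1 : b ≤ b ^ 3 := Nat.le_self_pow (by norm_num) _
      have h2 : 8 * b ^ 3 * 1 ≤ 8 * b ^ 3 * (Nat.log 4 (4 * W) + 1) :=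
        Nat.mul_le_mul_left _ (by omega)
      omega
    have hLb := Lb_le (W := W) hW1 hba
    rw [← hl] at hLb
    have h2 : (A.card : ℝ) ^ (2 / 3 : ℝ) ≤ 64 * l * (b : ℝ) ^ 2 := by
      apply pow_bound hl1 hbpos
      refine hb2'.trans ?_
      have h3 : ((b : ℝ) + 1) ^ 3 ≤ (2 * (b : ℝ)) ^ 3 :=
        pow_le_pow_left₀ (by positivity) (by linarith) 3
      nlinarith
    have hRle : R ≤ 2 ^ 66 * 27 ^ 6 * l ^ 7 / (A.card : ℝ) ^ (2 / 3 : ℝ) := by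
      rw [hRR, div_le_div_iff₀ (by positivity) hap]
      have h3 : (Lb b : ℝ) ^ 6 ≤ (27 * l) ^ 6 := pow_le_pow_left₀ (Nat.cast_nonneg _) hLb 6
      calc 2 ^ 60 * (Lb b : ℝ) ^ 6 * (A.card : ℝ) ^ (2 / 3 : ℝ)
          ≤ 2 ^ 60 * (27 * l) ^ 6 * (64 * l * (b : ℝ) ^ 2) := by
            apply mul_le_mul _ h2 hap.le (by positivity)
            exact mul_le_mul_of_nonneg_left h3 (by positivity)
        _ = 2 ^ 66 * 27 ^ 6 * l ^ 7 * (b : ℝ) ^ 2 := by ring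
    rcases hLin.eq_or_lt with h0 | h0
    · have h3 := cnt_abs (fun a b : P => a < b) x y
      rw [← h0] at h3
      rw [← h0, mul_zero]
      exact h3
    · rw [abs_div, abs_of_pos h0, div_le_iff₀ h0] at hle
      exact hle.trans (mul_le_mul_of_nonneg_right hRle h0.le)

end Pool.Agent.V5helper68.IR
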