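import Pool.Agent.V5helper26.IR.Stm

/-!
# Project IR: the step FIN
-/

set_option autoImplicit false

open Finset Filter Topology
open scoped Classical

namespace Pool.Agent.V5helper68.IR

open Pool.Agent.V5helper26.IR Pool.Agent.TH447.KS Pool.Agent.H13R3.WB Pool.Agent.H931R3.Bal

/-- (FIN) -/
theorem t_FIN (hLIN : S_LIN) : S_FIN := by
  obtain ⟨K, hK, hmain⟩ := hLIN
  refine ⟨3 + K * 4 ^ 7, by positivity, ?_⟩
  intro P _ _ hP w hw1 hw
  obtain ⟨⟨A, hA, hAc⟩, hwid⟩ := hw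
  have hne : Nonempty P := by
    obtain ⟨x, _⟩ := Finset.card_pos.1 (show 0 < A.card by omega)
    exact ⟨x⟩
  have hw1' : (1 : ℝ) ≤ w := by exact_mod_cast hw1
  have hwpos : (0 : ℝ) < w := by linarith
  have hlog : 0 ≤ Real.log w := Real.log_nonneg hw1'
  have hp : (0 : ℝ) < (w : ℝ) ^ (2 / 3 : ℝ) := Real.rpow_pos_of_pos hwpos _
  obtain ⟨l, hl⟩ : ∃ l : ℝ, l = (1 + Real.log w) ^ 7 := ⟨_, rfl⟩
  have hl1 : 1 ≤ l := by
    rw [hl]
    exact one_le_pow₀ (by linarith)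
  rw [← hl]
  rcases Nat.lt_or_ge w 2 with hw2 | hw2
  · have hww : w = 1 := by omega
    subst hww
    have h1 : (((1 : ℕ) : ℝ)) ^ (2 / 3 : ℝ) = 1 := by norm_num
    rw [h1, div_one]
    have h2 : 1 / 2 - (3 + K * 4 ^ 7) * l ≤ 0 := by nlinarith
    exact h2.trans balance_nonneg
  by_cases hbig : ∃ x : P, 6 * w < inc (lt' P) x ∧ (w : ℝ) ^ (5 / 3 : ℝ) ≤ inc (lt' P) x
  · obtain ⟨x, hm, hx⟩ := hbig
    obtain ⟨z, hxz, h1, h2⟩ := ladder (r := lt' P) (fun a b c => lt_trans)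
      (fun a => lt_irrefl a) (interval_22 hP) (fun B hB => hwid B (anti_iff.2 hB)) x hm
    have hbal := le_balance_of_cnt h1 h2
    refine le_trans ?_ hbal
    have hmpos : (0 : ℝ) < inc (lt' P) x := by
      have : 0 < inc (lt' P) x := by omega
      exact_mod_cast this
    have h3 : 3 * (w : ℝ) / inc (lt' P) x ≤ 3 / (w : ℝ) ^ (2 / 3 : ℝ) := by
      rw [div_le_div_iff₀ hmpos hp]
      have h4 : (w : ℝ) * (w : ℝ) ^ (2 / 3 : ℝ) = (w : ℝ) ^ (5 / 3 : ℝ) := by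
        rw [show (5 / 3 : ℝ) = 1 + 2 / 3 by norm_num, Real.rpow_add hwpos, Real.rpow_one]
      nlinarith
    have h4 : 3 / (w : ℝ) ^ (2 / 3 : ℝ) ≤ (3 + K * 4 ^ 7) * l / (w : ℝ) ^ (2 / 3 : ℝ) := by
      apply div_le_div_of_nonneg_right _ hp.le
      nlinarith [mul_pos hK (show (0 : ℝ) < 4 ^ 7 by norm_num)]
    linarith
  · rw [not_exists] at hbig
    have hW : ∀ x : P, inc (lt' P) x ≤ 6 * w ^ 2 := by
      intro x
      rcases le_or_gt (inc (lt' P) x) (6 * w) with h | h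
      · nlinarith
      · have h1 : (inc (lt' P) x : ℝ) < (w : ℝ) ^ (5 / 3 : ℝ) := by
          by_contra hcon
          exact hbig x ⟨h, not_lt.1 hcon⟩
        have h2 : (w : ℝ) ^ (5 / 3 : ℝ) ≤ (w : ℝ) ^ (2 : ℝ) :=
          Real.rpow_le_rpow_of_exponent_le hw1' (by norm_num)
        have h3 : (w : ℝ) ^ (2 : ℝ) = ((w ^ 2 : ℕ) : ℝ) := by
          rw [show (2 : ℝ) = ((2 : ℕ) : ℝ) by norm_num, Real.rpow_natCast]
          push_cast
          rfl
        have h4 : (inc (lt' P) x : ℝ) ≤ ((w ^ 2 : ℕ) : ℝ) := by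
          rw [← h3]
          exact h1.le.trans h2
        have h5 : inc (lt' P) x ≤ w ^ 2 := by exact_mod_cast h4
        omega
    obtain ⟨x, hx, y, hy, hxy, h⟩ := hmain P (interval_22 hP) A (6 * w ^ 2) (anti_iff.1 hA)
      (by omega) (fun x _ => hW x)
    rw [hAc] at h
    have hlogb : 1 + Real.log (((6 * w ^ 2 : ℕ) : ℝ) + w) ≤ 4 * (1 + Real.log w) := by
      have h1 : (((6 * w ^ 2 : ℕ) : ℝ) + w) ≤ 7 * (w : ℝ) ^ 2 := by
        push_cast
        nlinarith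
      have h2 : Real.log (((6 * w ^ 2 : ℕ) : ℝ) + w) ≤ Real.log (7 * (w : ℝ) ^ 2) :=
        Real.log_le_log (by positivity) h1
      have h3 : Real.log (7 * (w : ℝ) ^ 2) = Real.log 7 + 2 * Real.log w := by
        rw [Real.log_mul (by norm_num) (by positivity), Real.log_pow]
        norm_num
      have h4 : Real.log 7 ≤ 3 := by
        have h5 : Real.log 7 ≤ Real.log 8 := Real.log_le_log (by norm_num) (by norm_num)
        have h6 : Real.log 8 = 3 * Real.log 2 := by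
          rw [show (8 : ℝ) = 2 ^ 3 by norm_num, Real.log_pow]
          norm_num
        have h7 := Real.log_two_lt_d9
        linarith
      linarith
    have hnn : 0 ≤ 1 + Real.log (((6 * w ^ 2 : ℕ) : ℝ) + w) := by
      have : 0 ≤ Real.log (((6 * w ^ 2 : ℕ) : ℝ) + w) := Real.log_nonneg (by
        have : (0 : ℝ) ≤ ((6 * w ^ 2 : ℕ) : ℝ) := Nat.cast_nonneg _
        linarith)
      linarith
    have hpow : (1 + Real.log (((6 * w ^ 2 : ℕ) : ℝ) + w)) ^ 7 ≤ 4 ^ 7 * l := by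
      calc (1 + Real.log (((6 * w ^ 2 : ℕ) : ℝ) + w)) ^ 7 ≤ (4 * (1 + Real.log w)) ^ 7 :=
            pow_le_pow_left₀ hnn hlogb 7
        _ = 4 ^ 7 * l := by rw [hl, mul_pow]
    have hc : K * (1 + Real.log (((6 * w ^ 2 : ℕ) : ℝ) + w)) ^ 7 / (w : ℝ) ^ (2 / 3 : ℝ) ≤
        2 * ((3 + K * 4 ^ 7) * l / (w : ℝ) ^ (2 / 3 : ℝ)) := by
      rw [mul_div_assoc']
      apply div_le_div_of_nonneg_right _ hp.le
      have h1 : K * (1 + Real.log (((6 * w ^ 2 : ℕ) : ℝ) + w)) ^ 7 ≤ K * (4 ^ 7 * l) :=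
        mul_le_mul_of_nonneg_left hpow hK.le
      have h2 : 0 ≤ K * (4 ^ 7 * l) := by positivity
      nlinarith
    have h' : |cnt (lt' P) x y - cnt (lt' P) y x| ≤
        2 * ((3 + K * 4 ^ 7) * l / (w : ℝ) ^ (2 / 3 : ℝ)) * (Lin (lt' P)).card :=
      h.trans (mul_le_mul_of_nonneg_right hc (Nat.cast_nonneg _))
    obtain ⟨h1, h2⟩ := half_of_abs' hxy h'
    exact le_balance_of_cnt h1 h2

end Pool.Agent.V5helper68.IR
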